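import Pool.Agent.T3H29.DG.Fin

set_option autoImplicit false

/-!
# Almost primes `n ^ 2 + a` with `n` an integer with restricted digits
-/

namespace Pool.Agent.Kept.MP_7169d5_nt.RestrictedDigits

open Finset Filter

/-- The integers `n < b ^ k` with restricted digits: for every place `i < k` the digit `n / b ^ i % b` of `n`
in base `b` belongs to `D i`. -/
def restricted (b : ℕ) (D : ℕ → Finset ℕ) (k : ℕ) : Finset ℕ :=
  (range (b ^ k)).filter (fun n : ℕ => ∀ i < k, n / b ^ i % b ∈ D i)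

open Classical in
/-- The number of the elements `n` of `S` such that `n ^ 2 + a` has at most `r` prime factors (counted with
multiplicity), all of them at least `w`. -/
noncomputable def almostPrimes (a : ℤ) (r : ℕ) (w : ℝ) (S : Finset ℕ) : ℕ :=
  (S.filter (fun n : ℕ => ((n : ℤ) ^ 2 + a).natAbs.primeFactorsList.length ≤ r ∧
    ∀ p : ℕ, p.Prime → (p : ℤ) ∣ (n : ℤ) ^ 2 + a → w ≤ p)).card

/-- **Almost prime values of `n ^ 2 + a` at the integers with restricted digits.**  Let `-a` be no perfect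
square, for instance `a = 1`, and let `r = 5`, `1 / 2 ≤ t < 1`, `z = 2 t / 5`, or `r = 4`, `269 / 500 ≤ t < 1`,
`z = t / 4`, or `r = 3`, `29 / 40 ≤ t < 1`, `z = t / 4`.  Let `0 < μ < min (1 / 2, 1 - t)`.  For every large base
`b` there is a `δ > 0` such that for all large `k` and all sets `D 0, …, D (k - 1)` of digits, each of which
contains all but at most `b ^ μ` of the digits, at least `δ |S| / k` of the elements `n` of the set `S` of the
integers `n < b ^ k` all of whose digits are in the respective sets are such that `n ^ 2 + a` has at most `r`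
prime factors, all of them at least `b ^ (k z)`. -/
theorem result (a : ℤ) (ha : ¬ IsSquare (-a)) (r : ℕ) (t z : ℝ)
    (hpar : (r = 5 ∧ 1 / 2 ≤ t ∧ z = 2 / 5 * t) ∨ (r = 4 ∧ 269 / 500 ≤ t ∧ z = t / 4) ∨
      (r = 3 ∧ 29 / 40 ≤ t ∧ z = t / 4)) (ht : t < 1) (μ : ℝ) (hμ0 : 0 < μ) (hμ1 : μ < 1 / 2)
    (hμt : μ < 1 - t) :
    ∀ᶠ b : ℕ in atTop, ∃ δ : ℝ, 0 < δ ∧ ∀ᶠ k : ℕ in atTop, ∀ D : ℕ → Finset ℕ,
      (∀ i < k, D i ⊆ range b ∧ ((range b \ D i).card : ℝ) ≤ (b : ℝ) ^ μ) →
      δ * (restricted b D k).card / k ≤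
        (almostPrimes a r (((b : ℝ) ^ k) ^ z) (restricted b D k) : ℝ) := by
  rcases hpar with ⟨rfl, ht0, rfl⟩ | ⟨rfl, ht0, rfl⟩ | ⟨rfl, ht0, rfl⟩
  · have hc := Pool.Agent.Y882.KW.cond_B t (20 / 31) (by linarith) (by norm_num) (by norm_num)
    obtain ⟨b0, H⟩ := Pool.Agent.T3H29.DG.fin a ha 5 t (2 / 5 * t) (9 / 10 * t) (20 / 31)
      (1001 / 500) (by linarith) (by linarith) (by linarith) ht (by linarith)
      (by linarith) (by norm_num) hc (by norm_num) (by
        have h3 : (1001 / 500 : ℝ) / (9 / 10 * t) ≤ 4449 / 1000 := by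
          rw [div_le_iff₀ (by linarith)]
          linarith
        push_cast
        norm_num at h3 ⊢
        linarith) μ hμ0 hμ1 hμt
    refine eventually_atTop.2 ⟨b0, fun b hb => ?_⟩
    obtain ⟨δ, hδ, k0, HK⟩ := H b hb
    exact ⟨δ, hδ, eventually_atTop.2 ⟨k0, fun k hk D hD => HK k hk D hD⟩⟩
  · have hc := Pool.Agent.Y882.KW.cond_A t (8 / 9) (by linarith) (by norm_num) (by norm_num)
    obtain ⟨b0, H⟩ := Pool.Agent.T3H29.DG.fin a ha 4 t (t / 4) (24 / 25 * t) (8 / 9)
      (2001 / 1000) (by linarith) (by linarith) (by linarith) ht (by linarith)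
      (by linarith) (by norm_num) hc (by norm_num) (by
        have h3 : (2001 / 1000 : ℝ) / (24 / 25 * t) ≤ 3875 / 1000 := by
          rw [div_le_iff₀ (by linarith)]
          linarith
        push_cast
        norm_num at h3 ⊢
        linarith) μ hμ0 hμ1 hμt
    refine eventually_atTop.2 ⟨b0, fun b hb => ?_⟩
    obtain ⟨δ, hδ, k0, HK⟩ := H b hb
    exact ⟨δ, hδ, eventually_atTop.2 ⟨k0, fun k hk D hD => HK k hk D hD⟩⟩
  · have hc := Pool.Agent.Y882.KW.cond_A t (8 / 9) (by linarith) (by norm_num) (by norm_num)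
    obtain ⟨b0, H⟩ := Pool.Agent.T3H29.DG.fin a ha 3 t (t / 4) (24 / 25 * t) (8 / 9)
      (2001 / 1000) (by linarith) (by linarith) (by linarith) ht (by linarith)
      (by linarith) (by norm_num) hc (by norm_num) (by
        have h3 : (2001 / 1000 : ℝ) / (24 / 25 * t) ≤ 2875 / 1000 := by
          rw [div_le_iff₀ (by linarith)]
          linarith
        push_cast
        norm_num at h3 ⊢
        linarith) μ hμ0 hμ1 hμt
    refine eventually_atTop.2 ⟨b0, fun b hb => ?_⟩
    obtain ⟨δ, hδ, k0, HK⟩ := H b hb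
    exact ⟨δ, hδ, eventually_atTop.2 ⟨k0, fun k hk D hD => HK k hk D hD⟩⟩

end Pool.Agent.Kept.MP_7169d5_nt.RestrictedDigits
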